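import Pool.Agent.N436.DF.Stm2
import Pool.Agent.N436.DF.All

/-! DG/8 (helper690 for helper436): the start of the recursion. -/

namespace Pool.Agent.N690.DF

open Finset
open Pool.Agent.N436.DF

variable {V : Type} [DecidableEq V]

omit [DecidableEq V] in
lemma ew_symm {P : Par} {H : Hub V} (h : Ok P H) (u v : V) : ew P H u v = ew P H v u := by
  unfold ew
  rw [h.rsymm u v, h.msymm u v]

omit [DecidableEq V] in
lemma ew_self {P : Par} {H : Hub V} (h : Ok P H) (u : V) : ew P H u u = 0 := by
  unfold ew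
  rw [h.r0 u, h.m0 u]
  ring

lemma rho_insert {P : Par} {H : Hub V} (h : Ok P H) (Z : Finset V) (w : V) (hw : w ∉ Z) :
    rho P H (insert w Z) = rho P H Z + 2 * wt P H w - 2 * ∑ x ∈ Z, ew P H x w := by
  unfold rho
  rw [Finset.sum_insert hw, Finset.sum_insert hw, Finset.sum_insert hw, ew_self h]
  have h1 : ∑ u ∈ Z, ∑ v ∈ insert w Z, ew P H u v =
      ∑ u ∈ Z, ew P H u w + ∑ u ∈ Z, ∑ v ∈ Z, ew P H u v := by
    rw [← Finset.sum_add_distrib]
    exact Finset.sum_congr rfl fun u _ => by rw [Finset.sum_insert hw]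
  have h2 : ∑ v ∈ Z, ew P H w v = ∑ u ∈ Z, ew P H u w :=
    Finset.sum_congr rfl fun u _ => ew_symm h w u
  rw [h1, h2]
  ring

omit [DecidableEq V] in
lemma sum_split (X : Finset V) (f : V → Bool) (g : V → ℤ) :
    ∑ x ∈ X, g x = ∑ x ∈ X with f x = true, g x + ∑ x ∈ X with f x = false, g x := by
  rw [← Finset.sum_filter_add_sum_filter_not X (fun x => f x = true) g]
  congr 1
  apply Finset.sum_congr _ fun _ _ => rfl
  ext x
  simp

omit [DecidableEq V] in
lemma sum_ew (P : Par) (H : Hub V) (X : Finset V) (f : V → Bool) (v : V) :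
    ∑ x ∈ X, ew P H x v = P.D * (nr H X f true v + nr H X f false v) +
      P.a * (pr H X f true v + pr H X f false v) := by
  rw [sum_split X f]
  unfold nr pr ew
  simp only [Finset.sum_add_distrib, ← Finset.mul_sum]
  ring

theorem base2_of (hkr : S_killRho) (ha1 : S_A1) (hleaf : S_leaf2) : S_base2 := by
  intro V _ P H S X u w f p ht hne hc hfu
  obtain ⟨hn1, hn2, hp2, hc1, hc2, hp1, hrq⟩ := hleaf V P H S X u w f p ht hne hc hfu
  have hok : Ok P H := ht.mc.ok
  obtain ⟨kok, krho, knn, -, -, -, -⟩ := hkr V P H X f hok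
  have hm0 : 0 ≤ pr H X f true w := (knn w).2.2.1
  have hwS : w ∈ S := (mem_sdiff.1 ht.hw).1
  have hwX : w ∉ X := (mem_sdiff.1 ht.hw).2
  set T : Finset V := (S \ X).erase w with hT
  set m : ℤ := pr H X f true w with hm
  -- the identity of the kill system
  have hF0 : ∀ Y, Y ⊆ T → F0 P (kill H X f) (sav P H X f) Y =
      rho P H (Y ∪ X) - rho P H X := by
    intro Y hY
    unfold F0
    rw [krho Y ?_]
    · ring
    · rw [Finset.disjoint_left]
      intro x hx
      exact (mem_sdiff.1 (mem_of_mem_erase (hY hx))).2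
  -- adding `w`
  have hwT : w ∉ T := by rw [hT]; exact notMem_erase w _
  have hins : ∀ Y, Y ⊆ T → rho P H (insert w (Y ∪ X)) = rho P H (Y ∪ X) +
      2 * (P.b * H.c false w) - 2 * P.d - 2 * P.a * (m + ∑ v ∈ Y, H.m w v) := by
    intro Y hY
    have hwYX : w ∉ Y ∪ X := by
      rw [mem_union]
      rintro (h | h)
      · exact hwT (hY h)
      · exact hwX h
    have hdis : Disjoint Y X := by
      rw [Finset.disjoint_left]
      intro x hx
      exact (mem_sdiff.1 (mem_of_mem_erase (hY hx))).2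
    rw [rho_insert hok _ _ hwYX, Finset.sum_union hdis, sum_ew P H X f w, hn1, hn2, hp2]
    have h1 : ∑ x ∈ Y, ew P H x w = P.a * ∑ v ∈ Y, H.m w v := by
      rw [Finset.mul_sum]
      refine Finset.sum_congr rfl fun x hx => ?_
      unfold ew
      rw [hok.rsymm x w, hok.msymm x w, hrq x (mem_of_mem_erase (hY hx))]
      ring
    rw [h1]
    unfold wt
    rw [hc1]
    have := P.hD1
    rw [this]
    ring
  have hTX : insert w (T ∪ X) = S := by
    ext x
    rw [mem_insert, mem_union, hT, mem_erase, mem_sdiff]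
    constructor
    · rintro (h | ⟨_, h, _⟩ | h)
      · rw [h]; exact hwS
      · exact h
      · exact ht.sub h
    · intro h
      by_cases hxw : x = w
      · exact Or.inl hxw
      · by_cases hxX : x ∈ X
        · exact Or.inr (Or.inr hxX)
        · exact Or.inr (Or.inl ⟨hxw, h, hxX⟩)
  have hS := hins T (Finset.Subset.refl _)
  rw [hTX] at hS
  have hSne : S.Nonempty := ⟨w, hwS⟩
  have hhyp := ht.mc.hyp S (Finset.Subset.refl _) hSne
  have hab := P.hab
  have hd1 := P.hd
  have h2b := ht.rng.h2b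
  have hle := ht.le_a
  refine ⟨H.c false w - m, rho P H X - rho P H S - 2 * P.b - 2 * P.d * (1 + m), ?_⟩
  constructor
  · exact kok
  · exact hwT
  · show (if 0 < nr H X f true w then (-1 : ℤ) else _) = -1
    rw [if_pos (by rw [hn1]; norm_num)]
  · intro q hq
    exact hrq q (mem_of_mem_erase hq)
  · intro v
    exact (knn v).2.2.2.2.2
  · intro Y hY
    rw [hF0 Y hY]
    rcases Y.eq_empty_or_nonempty with rfl | hYn
    · rw [Finset.empty_union, sub_self]
    · obtain ⟨y, hy⟩ := hYn
      have hyX : y ∉ X := (mem_sdiff.1 (mem_of_mem_erase (hY hy))).2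
      have hsub : Y ∪ X ⊆ S := by
        apply Finset.union_subset _ ht.sub
        intro x hx
        exact (mem_sdiff.1 (mem_of_mem_erase (hY hx))).1
      have hwYX : w ∉ Y ∪ X := by
        rw [mem_union]
        rintro (h | h)
        · exact hwT (hY h)
        · exact hwX h
      have := ht.max (Y ∪ X) (by
        rw [Finset.ssubset_iff_of_subset Finset.subset_union_right]
        exact ⟨y, mem_union_left _ hy, hyX⟩) hsub
        ⟨u, mem_union_right _ ht.hu, w, mem_sdiff.2 ⟨hwS, hwYX⟩, ht.huw⟩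
      linarith
  · show H.c false w - m ≤ (if 0 < nr H X f false w then (-1 : ℤ)
      else max (-1) (H.c false w - pr H X f (!false) w))
    rw [if_neg (by rw [hn2]; norm_num)]
    exact le_max_right _ _
  · intro Y hY
    have hYT := hY.1
    rw [hF0 Y hYT, hF0 T (Finset.Subset.refl _)]
    have hY1 := hins Y hYT
    have hne' : insert w (Y ∪ X) ≠ S := by
      obtain ⟨z, hzT, hzY⟩ := Finset.exists_of_ssubset hY
      intro h
      have hz : z ∈ insert w (Y ∪ X) := by
        rw [h]; exact (mem_sdiff.1 (mem_of_mem_erase hzT)).1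
      rw [mem_insert, mem_union] at hz
      rcases hz with h | h | h
      · exact hwT (h ▸ hzT)
      · exact hzY h
      · exact (mem_sdiff.1 (mem_of_mem_erase hzT)).2 h
    have hsub : insert w (Y ∪ X) ⊆ S := by
      rw [← hTX]
      exact Finset.insert_subset_insert _ (Finset.union_subset_union_left hYT)
    have h1 := ha1 V P H S (insert w (Y ∪ X)) ht.mc hsub ⟨w, mem_insert_self _ _⟩ hne'
    have h2 : ∑ v ∈ T \ Y, H.m w v = ∑ v ∈ T, H.m w v - ∑ v ∈ Y, H.m w v := by
      rw [← Finset.sum_sdiff hYT]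
      ring
    show rho P H (T ∪ X) - rho P H X + 2 * P.a * (1 - ∑ v ∈ T \ Y, H.m w v) ≤ _
    rw [h2]
    rw [hY1] at h1
    nlinarith [h1, hS]
  · rw [hF0 T (Finset.Subset.refl _)]
    show rho P H (T ∪ X) - rho P H X + 2 * P.b * (H.c false w - m) -
      2 * P.a * ∑ v ∈ T, H.m w v = _
    rw [hS, hab]
    ring
  · have hdm : 0 ≤ P.d * m := mul_nonneg (by linarith) hm0
    have hdc : P.d * (P.k - 1) ≤ P.d * H.c false w := mul_le_mul_of_nonneg_left hc2 (by linarith)
    nlinarith [hdm, hdc]
  · have hdm : 0 ≤ P.d * m := mul_nonneg (by linarith) hm0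
    nlinarith [hdm]

theorem base2 (hleaf : S_leaf2) : S_base2 := base2_of killRho_h a1_h hleaf

end Pool.Agent.N690.DF
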